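import Pool.Agent.E8helper21.PerPos2

/-!
# The real period of an elliptic curve over `ℚ`
-/

set_option autoImplicit false

open Set Filter Topology MeasureTheory

namespace Pool.Agent.E8helper21

open Complex ComplexConjugate
open Pool.Agent.Y255.LAT (conj_mem wp_conj cyc ex_re ex_im dwp_zero)
open Pool.Agent.Y702.G (cubic)
open Pool.Agent.Y288.G (cubic_P)
open Pool.Agent.H285R3.Str (P_conj P'_conj)

variable {W : WeierstrassCurve ℤ} {L : PeriodPair}

lemma disc_cast (W : WeierstrassCurve ℤ) :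
    ((W.c₄ : ℝ) / 12) ^ 3 - 27 * ((W.c₆ : ℝ) / 216) ^ 2 = (W.Δ : ℝ) := by
  have h1 : (1728 : ℝ) * W.Δ = (W.c₄ : ℝ) ^ 3 - (W.c₆ : ℝ) ^ 2 := by
    exact_mod_cast congrArg (fun x : ℤ => (x : ℝ)) W.c_relation
  linear_combination (-1 / 1728 : ℝ) * h1

lemma integrable_of_ne {s : Set ℝ} {f : ℝ → ℝ} (h : ∫ x in s, f x ≠ 0) : IntegrableOn f s := by
  by_contra h1
  exact h (integral_undef h1)

theorem perPos (hΔ : 0 < W.Δ) (hg2 : L.g₂ = (W.c₄ : ℂ) / 12) (hg3 : L.g₃ = (W.c₆ : ℂ) / 216) :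
    ∃ Op : ℝ, 0 < Op ∧ (∀ w ∈ L.lattice, ∃ a : ℤ, w.re = a * Op) ∧
      ∫ x in {x : ℝ | 0 < cubic W x}, 1 / Real.sqrt (cubic W x) = Op := by
  obtain ⟨A', B', hA', hB', hlat⟩ := latPos L ((W.c₄ : ℝ) / 12) ((W.c₆ : ℝ) / 216)
    (by rw [hg2]; push_cast; rfl) (by rw [hg3]; push_cast; rfl) (by
      rw [disc_cast]
      exact_mod_cast hΔ)
  refine ⟨A', hA', fun w hw => ?_, ?_⟩
  · obtain ⟨m, n, h⟩ := (hlat w).1 hw
    refine ⟨m, ?_⟩
    rw [h]
    simp
  obtain ⟨A, hAA⟩ : ∃ A : ℝ, A' = 2 * A := ⟨A' / 2, by ring⟩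
  obtain ⟨B, hBB⟩ : ∃ B : ℝ, B' = 2 * B := ⟨B' / 2, by ring⟩
  subst hAA
  subst hBB
  have hA : 0 < A := by linarith
  have hB : 0 < B := by linarith
  -- membership
  have mem : ∀ x y : ℝ, (x : ℂ) + y * I ∈ L.lattice ↔
      (∃ m : ℤ, x = m * (2 * A)) ∧ ∃ n : ℤ, y = n * (2 * B) := by
    intro x y
    rw [hlat]
    constructor
    · rintro ⟨m, n, h⟩
      have h1 := congrArg Complex.re h
      have h2 := congrArg Complex.im h
      simp at h1 h2
      exact ⟨⟨m, h1⟩, ⟨n, h2⟩⟩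
    · rintro ⟨⟨m, h1⟩, ⟨n, h2⟩⟩
      refine ⟨m, n, ?_⟩
      rw [h1, h2]
      push_cast
      ring
  have notA : ∀ x : ℝ, 0 < x → x < 2 * A → ∀ m : ℤ, x ≠ m * (2 * A) := by
    rintro x h0 h1 m rfl
    have h2 : (0 : ℝ) < m := by
      by_contra hcon
      push Not at hcon
      nlinarith
    have h3 : (m : ℝ) < 1 := by
      by_contra hcon
      push Not at hcon
      nlinarith
    have h4 : (0 : ℤ) < m := by exact_mod_cast h2
    have h5 : m < (1 : ℤ) := by exact_mod_cast h3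
    omega
  have notB : ∀ x : ℝ, 0 < x → x < 2 * B → ∀ m : ℤ, x ≠ m * (2 * B) := by
    rintro x h0 h1 m rfl
    have h2 : (0 : ℝ) < m := by
      by_contra hcon
      push Not at hcon
      nlinarith
    have h3 : (m : ℝ) < 1 := by
      by_contra hcon
      push Not at hcon
      nlinarith
    have h4 : (0 : ℤ) < m := by exact_mod_cast h2
    have h5 : m < (1 : ℤ) := by exact_mod_cast h3
    omega
  have hc : ∀ l ∈ L.lattice, (starRingEnd ℂ) l ∈ L.lattice := by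
    intro l hl
    obtain ⟨m, n, rfl⟩ := (hlat l).1 hl
    refine (hlat _).2 ⟨m, -n, ?_⟩
    simp only [map_add, map_mul, Complex.conj_ofReal, Complex.conj_I, map_intCast]
    push_cast
    ring
  -- the two lines
  have hP0 : ∀ x : ℝ, L.weierstrassP (x + 0) = (pc L 0 x : ℂ) := by
    intro x
    have := P_conj L hc ((x : ℂ) + 0)
    rw [map_add, Complex.conj_ofReal, map_zero] at this
    exact (Complex.conj_eq_iff_re.1 this.symm).symm
  have hQ0 : ∀ x : ℝ, L.derivWeierstrassP (x + 0) = (qc L 0 x : ℂ) := by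
    intro x
    have := P'_conj L hc ((x : ℂ) + 0)
    rw [map_add, Complex.conj_ofReal, map_zero] at this
    exact (Complex.conj_eq_iff_re.1 this.symm).symm
  have h2B : ((2 * B : ℝ) : ℂ) * I ∈ L.lattice := by
    have := (mem 0 (2 * B)).2 ⟨⟨0, by simp⟩, ⟨1, by simp⟩⟩
    simpa using this
  have h2A : ((2 * A : ℝ) : ℂ) ∈ L.lattice := by
    have := (mem (2 * A) 0).2 ⟨⟨1, by simp⟩, ⟨0, by simp⟩⟩
    simpa using this
  have hconj : ∀ x : ℝ, (starRingEnd ℂ) ((x : ℂ) + (B : ℂ) * I) = (x : ℂ) + (B : ℂ) * I -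
      ((2 * B : ℝ) : ℂ) * I := by
    intro x
    rw [map_add, map_mul, Complex.conj_ofReal, Complex.conj_ofReal, Complex.conj_I]
    push_cast
    ring
  have hP1 : ∀ x : ℝ, L.weierstrassP (x + (B : ℂ) * I) = (pc L ((B : ℂ) * I) x : ℂ) := by
    intro x
    have := P_conj L hc ((x : ℂ) + (B : ℂ) * I)
    rw [hconj] at this
    have h3 := L.weierstrassP_sub_coe ((x : ℂ) + (B : ℂ) * I) ⟨_, h2B⟩
    simp only at h3
    rw [h3] at this
    exact (Complex.conj_eq_iff_re.1 this.symm).symm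
  have hQ1 : ∀ x : ℝ, L.derivWeierstrassP (x + (B : ℂ) * I) = (qc L ((B : ℂ) * I) x : ℂ) := by
    intro x
    have := P'_conj L hc ((x : ℂ) + (B : ℂ) * I)
    rw [hconj] at this
    have h3 := L.derivWeierstrassP_sub_coe ((x : ℂ) + (B : ℂ) * I) ⟨_, h2B⟩
    simp only at h3
    rw [h3] at this
    exact (Complex.conj_eq_iff_re.1 this.symm).symm
  have hn0 : ∀ x ∈ Ioo (0 : ℝ) A, 2 * ((x : ℂ) + 0) ∉ L.lattice := by
    intro x hx h
    have e : 2 * ((x : ℂ) + 0) = ((2 * x : ℝ) : ℂ) + ((0 : ℝ) : ℂ) * I := by push_cast; ring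
    rw [e, mem] at h
    obtain ⟨⟨m, hm⟩, -⟩ := h
    exact notA (2 * x) (by have := hx.1; linarith) (by have := hx.2; linarith) m hm
  have hn1 : ∀ x ∈ Ioo (0 : ℝ) A, 2 * ((x : ℂ) + (B : ℂ) * I) ∉ L.lattice := by
    intro x hx h
    have e : 2 * ((x : ℂ) + (B : ℂ) * I) = ((2 * x : ℝ) : ℂ) + ((2 * B : ℝ) : ℂ) * I := by
      push_cast; ring
    rw [e, mem] at h
    obtain ⟨⟨m, hm⟩, -⟩ := h
    exact notA (2 * x) (by have := hx.1; linarith) (by have := hx.2; linarith) m hm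
  obtain ⟨hs0, hi0⟩ := seg hg2 hg3 hP0 hQ0 hA hn0
  obtain ⟨hs1, hi1⟩ := seg hg2 hg3 hP1 hQ1 hA hn1
  -- the half periods
  have nA : (A : ℂ) + 0 ∉ L.lattice := by
    intro h
    have e : (A : ℂ) + 0 = (A : ℂ) + ((0 : ℝ) : ℂ) * I := by push_cast; ring
    rw [e, mem] at h
    obtain ⟨⟨m, hm⟩, -⟩ := h
    exact notA A hA (by linarith) m hm
  have nB : ∀ x : ℝ, (x : ℂ) + (B : ℂ) * I ∉ L.lattice := by
    intro x h
    rw [mem] at h
    obtain ⟨-, ⟨m, hm⟩⟩ := h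
    exact notB B hB (by linarith) m hm
  have n0 : ∀ x ∈ Ioc (0 : ℝ) A, (x : ℂ) + 0 ∉ L.lattice := by
    intro x hx h
    have e : (x : ℂ) + 0 = (x : ℂ) + ((0 : ℝ) : ℂ) * I := by push_cast; ring
    rw [e, mem] at h
    obtain ⟨⟨m, hm⟩, -⟩ := h
    exact notA x hx.1 (by have := hx.2; linarith) m hm
  have qA : qc L 0 A = 0 := by
    have h1 := dwp_zero L ((A : ℂ) + 0) (by
      have e : (A : ℂ) + 0 + ((A : ℂ) + 0) = ((2 * A : ℝ) : ℂ) := by push_cast; ring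
      rw [e]
      exact h2A)
    rw [hQ0] at h1
    exact_mod_cast h1
  have q0B : qc L ((B : ℂ) * I) 0 = 0 := by
    have h1 := dwp_zero L (((0 : ℝ) : ℂ) + (B : ℂ) * I) (by
      have e : ((0 : ℝ) : ℂ) + (B : ℂ) * I + (((0 : ℝ) : ℂ) + (B : ℂ) * I) =
        ((2 * B : ℝ) : ℂ) * I := by push_cast; ring
      rw [e]
      exact h2B)
    rw [hQ1] at h1
    exact_mod_cast h1
  have qAB : qc L ((B : ℂ) * I) A = 0 := by
    have h1 := dwp_zero L ((A : ℂ) + (B : ℂ) * I) (by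
      have e : (A : ℂ) + (B : ℂ) * I + ((A : ℂ) + (B : ℂ) * I) =
        ((2 * A : ℝ) : ℂ) + ((2 * B : ℝ) : ℂ) * I := by push_cast; ring
      rw [e]
      exact add_mem h2A h2B)
    rw [hQ1] at h1
    exact_mod_cast h1
  set x1 : ℝ := pc L 0 A - (W.b₂ : ℝ) / 12 with hx1
  set x2 : ℝ := pc L ((B : ℂ) * I) A - (W.b₂ : ℝ) / 12 with hx2
  set x3 : ℝ := pc L ((B : ℂ) * I) 0 - (W.b₂ : ℝ) / 12 with hx3
  have r1 : cubic W x1 = 0 := by
    rw [hx1, ← qc_eq hg2 hg3 hP0 hQ0 nA, qA]; norm_num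
  have r2 : cubic W x2 = 0 := by
    rw [hx2, ← qc_eq hg2 hg3 hP1 hQ1 (nB A), qAB]; norm_num
  have r3 : cubic W x3 = 0 := by
    rw [hx3, ← qc_eq hg2 hg3 hP1 hQ1 (nB 0), q0B]; norm_num
  have h12 : x1 ≠ x2 := by
    intro h
    have h1 : pc L 0 A = pc L ((B : ℂ) * I) A := by rw [hx1, hx2] at h; linarith
    have h3 : L.weierstrassP ((A : ℂ) + 0) = L.weierstrassP ((A : ℂ) + (B : ℂ) * I) := by
      rw [hP0, hP1, h1]
    rcases Wg.wp_inj L _ _ nA (nB A) h3 with h4 | h4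
    · have e : (A : ℂ) + 0 - ((A : ℂ) + (B : ℂ) * I) = -(((0 : ℝ) : ℂ) + (B : ℂ) * I) := by
        push_cast; ring
      rw [e, neg_mem_iff] at h4
      exact nB 0 h4
    · have e : (A : ℂ) + 0 + ((A : ℂ) + (B : ℂ) * I) = ((2 * A : ℝ) : ℂ) + (B : ℂ) * I := by
        push_cast; ring
      rw [e] at h4
      exact nB _ h4
  have h13 : x1 ≠ x3 := by
    intro h
    have h1 : pc L 0 A = pc L ((B : ℂ) * I) 0 := by rw [hx1, hx3] at h; linarith
    have h3 : L.weierstrassP ((A : ℂ) + 0) = L.weierstrassP (((0 : ℝ) : ℂ) + (B : ℂ) * I) := by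
      rw [hP0, hP1, h1]
    rcases Wg.wp_inj L _ _ nA (nB 0) h3 with h4 | h4
    · have e : (A : ℂ) + 0 - (((0 : ℝ) : ℂ) + (B : ℂ) * I) = -(((-A : ℝ) : ℂ) + (B : ℂ) * I) := by
        push_cast; ring
      rw [e, neg_mem_iff] at h4
      exact nB _ h4
    · have e : (A : ℂ) + 0 + (((0 : ℝ) : ℂ) + (B : ℂ) * I) = (A : ℂ) + (B : ℂ) * I := by
        push_cast; ring
      rw [e] at h4
      exact nB _ h4
  have h23 : x2 ≠ x3 := by
    intro h
    have h1 : pc L ((B : ℂ) * I) A = pc L ((B : ℂ) * I) 0 := by rw [hx2, hx3] at h; linarith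
    have h3 : L.weierstrassP ((A : ℂ) + (B : ℂ) * I) =
        L.weierstrassP (((0 : ℝ) : ℂ) + (B : ℂ) * I) := by
      rw [hP1, hP1, h1]
    rcases Wg.wp_inj L _ _ (nB A) (nB 0) h3 with h4 | h4
    · have e : (A : ℂ) + (B : ℂ) * I - (((0 : ℝ) : ℂ) + (B : ℂ) * I) = (A : ℂ) + 0 := by
        push_cast; ring
      rw [e] at h4
      exact nA h4
    · have e : (A : ℂ) + (B : ℂ) * I + (((0 : ℝ) : ℂ) + (B : ℂ) * I) =
          ((A : ℂ) + 0) + ((2 * B : ℝ) : ℂ) * I := by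
        push_cast; ring
      rw [e] at h4
      have h5 := sub_mem h4 h2B
      rw [add_sub_cancel_right] at h5
      exact nA h5
  have hfac := cubic_fac r1 r2 r3 h12 h13 h23
  -- the image of the first segment
  have hneg0 : ∀ x ∈ Ioo (0 : ℝ) A, qc L 0 x < 0 := by
    rcases hs0 with h | h
    · exfalso
      have hmono : StrictMonoOn (pc L 0) (Ioo (0 : ℝ) A) := by
        refine strictMonoOn_of_deriv_pos (convex_Ioo _ _) ?_ ?_
        · intro x hx
          exact (pc_deriv (n0 x ⟨hx.1, hx.2.le⟩)).continuousAt.continuousWithinAt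
        · intro x hx
          rw [interior_Ioo] at hx
          rw [(pc_deriv (n0 x ⟨hx.1, hx.2.le⟩)).deriv]
          exact h x hx
      have hm : A / 2 ∈ Ioo (0 : ℝ) A := ⟨by linarith, by linarith⟩
      have h3 : ∀ᶠ x in 𝓝[>] (0 : ℝ), pc L 0 (A / 2) < pc L 0 x :=
        pc_top.eventually_gt_atTop _
      have h4 : ∀ᶠ x in 𝓝[>] (0 : ℝ), x ∈ Ioo (0 : ℝ) (A / 2) := Ioo_mem_nhdsGT (by linarith)
      obtain ⟨x, hx, hx'⟩ := (h3.and h4).exists
      have := hmono ⟨hx'.1, hx'.2.trans hm.2⟩ hm hx'.2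
      linarith
    · exact h
  have hanti : StrictAntiOn (pc L 0) (Ioc (0 : ℝ) A) := by
    refine strictAntiOn_of_deriv_neg (convex_Ioc _ _) ?_ ?_
    · intro x hx
      exact (pc_deriv (n0 x hx)).continuousAt.continuousWithinAt
    · intro x hx
      rw [interior_Ioc] at hx
      rw [(pc_deriv (n0 x ⟨hx.1, hx.2.le⟩)).deriv]
      exact hneg0 x hx
  have himg0 : (fun x => pc L 0 x - (W.b₂ : ℝ) / 12) '' Ioo (0 : ℝ) A = Ioi x1 := by
    ext y
    simp only [mem_image, mem_Ioi]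
    constructor
    · rintro ⟨x, hx, rfl⟩
      have := hanti ⟨hx.1, hx.2.le⟩ ⟨hA, le_refl _⟩ hx.2
      rw [hx1]; linarith
    · intro hy
      have h3 : ∀ᶠ x in 𝓝[>] (0 : ℝ), y + (W.b₂ : ℝ) / 12 < pc L 0 x :=
        pc_top.eventually_gt_atTop (y + (W.b₂ : ℝ) / 12)
      have h4 : ∀ᶠ x in 𝓝[>] (0 : ℝ), x ∈ Ioo (0 : ℝ) A := Ioo_mem_nhdsGT hA
      obtain ⟨a, ha, ha'⟩ := (h3.and h4).exists
      have hcont : ContinuousOn (pc L 0) (Icc a A) := by
        intro x hx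
        exact (pc_deriv (n0 x ⟨lt_of_lt_of_le ha'.1 hx.1, hx.2⟩)).continuousAt.continuousWithinAt
      obtain ⟨t, ht, ht'⟩ := intermediate_value_Icc' ha'.2.le hcont
        (show y + (W.b₂ : ℝ) / 12 ∈ Icc (pc L 0 A) (pc L 0 a) from
          ⟨by rw [hx1] at hy; linarith, by linarith⟩)
      refine ⟨t, ⟨lt_of_lt_of_le ha'.1 ht.1, lt_of_le_of_ne ht.2 ?_⟩, by rw [ht']; ring⟩
      rintro rfl
      rw [hx1, ht'] at hy
      linarith
  -- the image of the second segment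
  have hcont1 : ContinuousOn (fun x => pc L ((B : ℂ) * I) x - (W.b₂ : ℝ) / 12) (Icc 0 A) :=
    fun x _ => ((pc_deriv (nB x)).continuousAt.sub continuousAt_const).continuousWithinAt
  have himg1 : ∃ lo hi : ℝ, ((lo = x2 ∧ hi = x3) ∨ (lo = x3 ∧ hi = x2)) ∧ lo < hi ∧
      (fun x => pc L ((B : ℂ) * I) x - (W.b₂ : ℝ) / 12) '' Ioo (0 : ℝ) A = Ioo lo hi := by
    rcases hs1 with h | h
    · have hmono : StrictMonoOn (fun x => pc L ((B : ℂ) * I) x - (W.b₂ : ℝ) / 12) (Icc 0 A) := by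
        refine strictMonoOn_of_deriv_pos (convex_Icc _ _) hcont1 ?_
        intro x hx
        rw [interior_Icc] at hx
        rw [((pc_deriv (nB x)).sub_const _).deriv]
        exact h x hx
      refine ⟨x3, x2, Or.inr ⟨rfl, rfl⟩, hmono ⟨le_refl _, hA.le⟩ ⟨hA.le, le_refl _⟩ hA, ?_⟩
      apply Set.Subset.antisymm
      · rintro _ ⟨x, hx, rfl⟩
        exact ⟨hmono ⟨le_refl _, hA.le⟩ ⟨hx.1.le, hx.2.le⟩ hx.1,
          hmono ⟨hx.1.le, hx.2.le⟩ ⟨hA.le, le_refl _⟩ hx.2⟩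
      · exact intermediate_value_Ioo hA.le hcont1
    · have hmono : StrictAntiOn (fun x => pc L ((B : ℂ) * I) x - (W.b₂ : ℝ) / 12) (Icc 0 A) := by
        refine strictAntiOn_of_deriv_neg (convex_Icc _ _) hcont1 ?_
        intro x hx
        rw [interior_Icc] at hx
        rw [((pc_deriv (nB x)).sub_const _).deriv]
        exact h x hx
      refine ⟨x2, x3, Or.inl ⟨rfl, rfl⟩, hmono ⟨le_refl _, hA.le⟩ ⟨hA.le, le_refl _⟩ hA, ?_⟩
      apply Set.Subset.antisymm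
      · rintro _ ⟨x, hx, rfl⟩
        exact ⟨hmono ⟨hx.1.le, hx.2.le⟩ ⟨hA.le, le_refl _⟩ hx.2,
          hmono ⟨le_refl _, hA.le⟩ ⟨hx.1.le, hx.2.le⟩ hx.1⟩
      · exact intermediate_value_Ioo' hA.le hcont1
  obtain ⟨lo, hi, hlh, hlt, himg1⟩ := himg1
  have hfac' : ∀ x, cubic W x = 4 * ((x - x1) * (x - lo) * (x - hi)) := by
    intro x
    rw [hfac]
    rcases hlh with ⟨rfl, rfl⟩ | ⟨rfl, rfl⟩
    · ring
    · ring
  -- no root above `x1`
  have habove : ∀ y, x1 < y → 0 < cubic W y := by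
    intro y hy
    have h1 : y ∈ (fun x => pc L 0 x - (W.b₂ : ℝ) / 12) '' Ioo (0 : ℝ) A := by
      rw [himg0]
      exact hy
    obtain ⟨t, ht, rfl⟩ := h1
    show 0 < cubic W (pc L 0 t - (W.b₂ : ℝ) / 12)
    rw [← qc_eq hg2 hg3 hP0 hQ0 (n0 t ⟨ht.1, ht.2.le⟩)]
    have := (hneg0 t ht).ne
    positivity
  have hhi : hi < x1 := by
    have h1 : cubic W hi = 0 := by rw [hfac']; ring
    have h2 : hi ≤ x1 := by
      by_contra h
      push Not at h
      have := habove hi h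
      linarith
    refine lt_of_le_of_ne h2 ?_
    rcases hlh with ⟨-, h⟩ | ⟨-, h⟩
    · rw [h]; exact h13.symm
    · rw [h]; exact h12.symm
  have hset : {x : ℝ | 0 < cubic W x} = Ioo lo hi ∪ Ioi x1 := by
    ext x
    simp only [mem_setOf_eq, mem_union, mem_Ioo, mem_Ioi]
    constructor
    · intro hx
      by_contra hcon
      push Not at hcon
      obtain ⟨hc1, hc2⟩ := hcon
      rw [hfac'] at hx
      rcases le_or_gt x lo with h1 | h1
      · have : (x - x1) * (x - lo) * (x - hi) ≤ 0 := by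
          have a1 : x - x1 ≤ 0 := by linarith
          have a2 : x - lo ≤ 0 := by linarith
          have a3 : x - hi ≤ 0 := by linarith
          exact mul_nonpos_of_nonneg_of_nonpos (mul_nonneg_of_nonpos_of_nonpos a1 a2) a3
        linarith
      · have h2 := hc1 h1
        have : (x - x1) * (x - lo) * (x - hi) ≤ 0 := by
          have a1 : x - x1 ≤ 0 := by linarith
          have a2 : 0 ≤ x - lo := by linarith
          have a3 : 0 ≤ x - hi := by linarith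
          exact mul_nonpos_of_nonpos_of_nonneg (mul_nonpos_of_nonpos_of_nonneg a1 a2) a3
        linarith
    · rintro (⟨h1, h2⟩ | h1)
      · rw [hfac']
        have a1 : x - x1 < 0 := by linarith
        have a2 : 0 < x - lo := by linarith
        have a3 : x - hi < 0 := by linarith
        have := mul_pos_of_neg_of_neg (mul_neg_of_neg_of_pos a1 a2) a3
        linarith
      · exact habove x h1
  rw [himg0] at hi0
  rw [himg1] at hi1
  rw [hset, setIntegral_union ?_ measurableSet_Ioi (integrable_of_ne (by rw [hi1]; exact hA.ne'))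
    (integrable_of_ne (by rw [hi0]; exact hA.ne')), hi0, hi1]
  · ring
  · rw [Set.disjoint_left]
    rintro x ⟨-, h1⟩ h2
    have : x1 < x := h2
    linarith

/-- The real period. -/
theorem real_data (hΔ : W.Δ ≠ 0) (hg2 : L.g₂ = (W.c₄ : ℂ) / 12) (hg3 : L.g₃ = (W.c₆ : ℂ) / 216) :
    ∃ Op : ℝ, 0 < Op ∧ (∀ w ∈ L.lattice, ∃ a : ℤ, w.re = a * Op) ∧
      ∫ x in {x : ℝ | 0 < cubic W x}, 1 / Real.sqrt (cubic W x) = Op := by
  rcases lt_or_gt_of_ne hΔ with h | h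
  · obtain ⟨Op, Om, hOp, hOm, hlat⟩ := Pool.Agent.Y255.LT.s_lat L ((W.c₄ : ℝ) / 12)
      ((W.c₆ : ℝ) / 216) (by rw [hg2]; push_cast; rfl) (by rw [hg3]; push_cast; rfl) (by
        rw [disc_cast]
        exact_mod_cast h)
    refine ⟨Op, hOp, fun w hw => ?_, Pool.Agent.Y288.G.s_perr W h L Op Om hOp hOm hg2 hg3 hlat⟩
    obtain ⟨m, n, -, h⟩ := (hlat w).1 hw
    refine ⟨m, ?_⟩
    rw [h]
    simp
  · exact perPos h hg2 hg3

end Pool.Agent.E8helper21
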