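import Mathlib

/-!
# The Newell-Whitehead front

`u(x, t) = (1 + exp (-(x_n / √2 + 3 t / 2)))⁻¹` solves `Δ u - u_t = u³ - u`, with values in
`(0, 1)`, and is strictly increasing in `x_n` and in `t`.
-/

set_option autoImplicit false

namespace Pool.Agent.E8helper21.NWWave

open Real

/-- The front `(1 + exp (-(x_n / √2 + 3 t / 2)))⁻¹`. -/
noncomputable def front (m : ℕ) (p : EuclideanSpace ℝ (Fin (m + 1)) × ℝ) : ℝ :=
  sigmoid (p.1 (Fin.last m) / √2 + 3 / 2 * p.2)

lemma front_pos (m : ℕ) (p : EuclideanSpace ℝ (Fin (m + 1)) × ℝ) : 0 < front m p :=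
  sigmoid_pos _

lemma front_lt_one (m : ℕ) (p : EuclideanSpace ℝ (Fin (m + 1)) × ℝ) : front m p < 1 :=
  sigmoid_lt_one _

lemma front_contDiff (m : ℕ) : ContDiff ℝ (⊤ : ℕ∞) (front m) := by
  have h1 : ContDiff ℝ (⊤ : ℕ∞) (fun x : ℝ => sigmoid x) :=
    contDiff_sigmoid.of_le (by exact_mod_cast le_top)
  have h2 : ContDiff ℝ (⊤ : ℕ∞)
      (fun p : EuclideanSpace ℝ (Fin (m + 1)) × ℝ => p.1 (Fin.last m) / √2 + 3 / 2 * p.2) := by
    have h3 : ContDiff ℝ (⊤ : ℕ∞)
        (fun p : EuclideanSpace ℝ (Fin (m + 1)) × ℝ => p.1 (Fin.last m)) :=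
      (EuclideanSpace.proj (𝕜 := ℝ) (Fin.last m)).contDiff.comp contDiff_fst
    exact (h3.div_const _).add (contDiff_const.mul contDiff_snd)
  exact h1.comp h2

lemma hasDerivAt_time (m : ℕ) (x : EuclideanSpace ℝ (Fin (m + 1))) (t : ℝ) :
    HasDerivAt (fun s => front m (x, s)) (front m (x, t) * (1 - front m (x, t)) * (3 / 2)) t := by
  have h1 : HasDerivAt (fun s : ℝ => x (Fin.last m) / √2 + 3 / 2 * s) (3 / 2) t := by
    have := ((hasDerivAt_id t).const_mul (3 / 2 : ℝ)).const_add (x (Fin.last m) / √2)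
    simpa using this
  exact (hasDerivAt_sigmoid _).comp t h1

/-- Derivative in space of the product `a * σ (y_n / √2 + c) ...`. -/
lemma hasFDerivAt_space (m : ℕ) (x : EuclideanSpace ℝ (Fin (m + 1))) (t : ℝ) :
    HasFDerivAt (fun y => front m (y, t))
      ((front m (x, t) * (1 - front m (x, t)) * (1 / √2)) •
        (EuclideanSpace.proj (𝕜 := ℝ) (Fin.last m) :
          EuclideanSpace ℝ (Fin (m + 1)) →L[ℝ] ℝ)) x := by
  have h1 : HasFDerivAt (fun y : EuclideanSpace ℝ (Fin (m + 1)) =>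
      y (Fin.last m) / √2 + 3 / 2 * t)
      ((1 / √2) • (EuclideanSpace.proj (𝕜 := ℝ) (Fin.last m) :
          EuclideanSpace ℝ (Fin (m + 1)) →L[ℝ] ℝ)) x := by
    have h2 : HasFDerivAt (fun y : EuclideanSpace ℝ (Fin (m + 1)) => y (Fin.last m))
        (EuclideanSpace.proj (𝕜 := ℝ) (Fin.last m) :
          EuclideanSpace ℝ (Fin (m + 1)) →L[ℝ] ℝ) x :=
      (EuclideanSpace.proj (𝕜 := ℝ) (Fin.last m)).hasFDerivAt
    have h3 := (h2.const_mul (1 / √2)).add_const (3 / 2 * t)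
    have h5 : (fun y : EuclideanSpace ℝ (Fin (m + 1)) => y (Fin.last m) / √2 + 3 / 2 * t) =
        fun y => 1 / √2 * y (Fin.last m) + 3 / 2 * t := by
      funext y
      ring
    rw [h5]
    exact h3
  have h4 := (hasDerivAt_sigmoid (x (Fin.last m) / √2 + 3 / 2 * t)).comp_hasFDerivAt x h1
  rw [smul_smul] at h4
  exact h4

lemma fderiv_space (m : ℕ) (t : ℝ) :
    fderiv ℝ (fun y => front m (y, t)) = fun x =>
      ((front m (x, t) * (1 - front m (x, t)) * (1 / √2)) •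
        (EuclideanSpace.proj (𝕜 := ℝ) (Fin.last m) :
          EuclideanSpace ℝ (Fin (m + 1)) →L[ℝ] ℝ)) := by
  funext x
  exact (hasFDerivAt_space m x t).fderiv

lemma second (m : ℕ) (x : EuclideanSpace ℝ (Fin (m + 1))) (t : ℝ)
    (i : Fin (m + 1)) :
    iteratedFDeriv ℝ 2 (fun y => front m (y, t)) x
      (fun _ => EuclideanSpace.single i (1 : ℝ)) =
      if i = Fin.last m then
        front m (x, t) * (1 - front m (x, t)) * (1 - 2 * front m (x, t)) / 2 else 0 := by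
  rw [iteratedFDeriv_two_apply, fderiv_space]
  have h1 := hasFDerivAt_space m x t
  have h2 := ((h1.mul (h1.const_sub 1)).mul_const (1 / √2)).smul_const
    (EuclideanSpace.proj (𝕜 := ℝ) (Fin.last m) :
          EuclideanSpace ℝ (Fin (m + 1)) →L[ℝ] ℝ)
  have h2' : fderiv ℝ (fun y => (front m (y, t) * (1 - front m (y, t)) * (1 / √2)) •
      (EuclideanSpace.proj (𝕜 := ℝ) (Fin.last m) :
          EuclideanSpace ℝ (Fin (m + 1)) →L[ℝ] ℝ)) x = _ := h2.fderiv
  rw [h2']
  have hs : (1 / √2) * (1 / √2) = (1 / 2 : ℝ) := by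
    rw [div_mul_div_comm, Real.mul_self_sqrt (by norm_num)]
    norm_num
  by_cases hi : i = Fin.last m
  · subst hi
    simp
    have hs' : (√2)⁻¹ * (√2)⁻¹ = (1 / 2 : ℝ) := by
      rw [← hs]; simp
    linear_combination (front m (x, t) * (1 - front m (x, t)) * (1 - 2 * front m (x, t))) * hs'
  · simp [hi, Ne.symm hi]

end Pool.Agent.E8helper21.NWWave
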