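import Pool.Agent.Y255.LT.Fin
import Pool.Agent.Y288.G.Perr

/-!
# The real period of an elliptic curve with positive discriminant
-/

set_option autoImplicit false

open Set Filter Topology MeasureTheory

namespace Pool.Agent.E8helper21

open Complex ComplexConjugate
open Pool.Agent.Y255.LAT (cj conj_mem wp_conj cyc ex_re ex_im dwp_zero)

/-- a root of a real cubic with positive discriminant is real -/
theorem root_real {a b : ℝ} (hD : 0 < a ^ 3 - 27 * b ^ 2) {e : ℂ}
    (he : 4 * e ^ 3 - a * e - b = 0) : conj e = e := by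
  rw [Complex.conj_eq_iff_im]
  by_contra hy
  set x := e.re with hx
  set y := e.im with hy'
  have e1 : e = (x : ℂ) + y * I := (Complex.re_add_im e).symm
  have him := congrArg Complex.im he
  have hre := congrArg Complex.re he
  have h3 : e ^ 3 = ((x ^ 3 - 3 * x * y ^ 2 : ℝ) : ℂ) + ((3 * x ^ 2 * y - y ^ 3 : ℝ) : ℂ) * I := by
    rw [e1]
    push_cast
    have hI : I ^ 2 = -1 := I_sq
    linear_combination (3 * (x : ℂ) * y ^ 2 + y ^ 3 * I) * hI
  rw [h3] at him hre
  simp only [Complex.sub_im, Complex.sub_re, Complex.mul_im, Complex.mul_re, Complex.add_im,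
    Complex.add_re, Complex.ofReal_im, Complex.ofReal_re, Complex.I_im, Complex.I_re,
    Complex.zero_im, Complex.zero_re] at him hre
  norm_num at him hre
  rw [← hy'] at him
  rw [← hx] at hre
  have ha : a = 12 * x ^ 2 - 4 * y ^ 2 := by
    have : y * (12 * x ^ 2 - 4 * y ^ 2 - a) = 0 := by linear_combination him
    rcases mul_eq_zero.1 this with h | h
    · exact absurd h hy
    · linarith
  have hb : b = -8 * x ^ 3 - 8 * x * y ^ 2 := by
    rw [ha] at hre
    linear_combination -hre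
  have : a ^ 3 - 27 * b ^ 2 = -64 * (y * (9 * x ^ 2 + y ^ 2)) ^ 2 := by
    rw [ha, hb]; ring
  rw [this] at hD
  nlinarith [sq_nonneg (y * (9 * x ^ 2 + y ^ 2))]

/-- the shape of a lattice with real invariants and positive discriminant -/
theorem latPos (L : PeriodPair) (a b : ℝ) (h2 : L.g₂ = a) (h3 : L.g₃ = b)
    (hpos : 0 < a ^ 3 - 27 * b ^ 2) : ∃ A B : ℝ, 0 < A ∧ 0 < B ∧
      ∀ w : ℂ, w ∈ L.lattice ↔ ∃ m n : ℤ, w = m * A + n * B * I := by
  have hc := conj_mem L a b h2 h3
  -- real and imaginary parts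
  have hre : ∀ w ∈ L.lattice, (((2 * w.re : ℝ)) : ℂ) * 1 ∈ L.lattice := by
    intro w hw
    have : (((2 * w.re : ℝ)) : ℂ) * 1 = w + conj w := by
      rw [Complex.add_conj]; simp
    rw [this]
    exact add_mem hw (hc w hw)
  have him : ∀ w ∈ L.lattice, (((2 * w.im : ℝ)) : ℂ) * I ∈ L.lattice := by
    intro w hw
    have : (((2 * w.im : ℝ)) : ℂ) * I = w - conj w := by
      rw [Complex.sub_conj]
    rw [this]
    exact sub_mem hw (hc w hw)
  obtain ⟨w1, hw1, hw1'⟩ := ex_re L
  obtain ⟨w2, hw2, hw2'⟩ := ex_im L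
  obtain ⟨A, hA, hA'⟩ := cyc L 1 one_ne_zero (2 * w1.re) (by simpa using hw1') (hre w1 hw1)
  obtain ⟨B, hB, hB'⟩ := cyc L I I_ne_zero (2 * w2.im) (by simpa using hw2') (him w2 hw2)
  have hAm : (A : ℂ) ∈ L.lattice := by
    have := (hA' A).2 ⟨1, by simp⟩
    simpa using this
  have hBm : (B : ℂ) * I ∈ L.lattice := (hB' B).2 ⟨1, by simp⟩
  have hform : ∀ w ∈ L.lattice, ∃ m n : ℤ, w = m * ((A / 2 : ℝ) : ℂ) + n * ((B / 2 : ℝ) : ℂ) * I := by
    intro w hw
    obtain ⟨m, hm⟩ := (hA' _).1 (hre w hw)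
    obtain ⟨n, hn⟩ := (hB' _).1 (him w hw)
    refine ⟨m, n, ?_⟩
    apply Complex.ext
    · simp
      linarith
    · simp
      linarith
  have hA2 : ((A / 2 : ℝ) : ℂ) ∉ L.lattice := by
    intro h
    obtain ⟨n, hn⟩ := (hA' (A / 2)).1 (by simpa using h)
    have h1 : (1 : ℝ) = 2 * n := by
      have : A * 1 = A * (2 * n) := by linarith
      exact mul_left_cancel₀ hA.ne' this
    have h2 : (1 : ℤ) = 2 * n := by exact_mod_cast h1
    omega
  have hB2 : ((B / 2 : ℝ) : ℂ) * I ∉ L.lattice := by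
    intro h
    obtain ⟨n, hn⟩ := (hB' (B / 2)).1 h
    have h1 : (1 : ℝ) = 2 * n := by
      have : B * 1 = B * (2 * n) := by linarith
      exact mul_left_cancel₀ hB.ne' this
    have h2 : (1 : ℤ) = 2 * n := by exact_mod_cast h1
    omega
  -- the rhombic case is excluded
  have hrh : ((A / 2 : ℝ) : ℂ) + ((B / 2 : ℝ) : ℂ) * I ∉ L.lattice := by
    intro hr
    set v : ℂ := ((A / 4 : ℝ) : ℂ) + ((B / 4 : ℝ) : ℂ) * I with hv
    have hvc : conj v = ((A / 4 : ℝ) : ℂ) - ((B / 4 : ℝ) : ℂ) * I := by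
      rw [hv, map_add, map_mul, Complex.conj_ofReal, Complex.conj_ofReal, Complex.conj_I]
      ring
    have hsum : v + conj v = ((A / 2 : ℝ) : ℂ) := by
      rw [hvc, hv]; push_cast; ring
    have hdif : v - conj v = ((B / 2 : ℝ) : ℂ) * I := by
      rw [hvc, hv]; push_cast; ring
    have hvn : v ∉ L.lattice := by
      intro h
      apply hA2
      rw [← hsum]
      exact add_mem h (hc v h)
    have hvn' : conj v ∉ L.lattice := by
      intro h
      apply hvn
      have := hc _ h
      rwa [Complex.conj_conj] at this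
    have hdv := dwp_zero L v (by
      have : v + v = ((A / 2 : ℝ) : ℂ) + ((B / 2 : ℝ) : ℂ) * I := by
        rw [hv]; push_cast; ring
      rw [this]
      exact hr)
    have hsq := L.derivWeierstrassP_sq v hvn
    rw [hdv, h2, h3] at hsq
    have hreal := root_real hpos (e := L.weierstrassP v) (by linear_combination -hsq)
    rcases Wg.wp_inj L v (conj v) hvn hvn' (by rw [wp_conj L hc, hreal]) with h | h
    · rw [hdif] at h
      exact hB2 h
    · rw [hsum] at h
      exact hA2 h
  refine ⟨A, B, hA, hB, fun w => ⟨fun hw => ?_, ?_⟩⟩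
  · obtain ⟨m, n, hmn⟩ := hform w hw
    obtain ⟨m', hm' | hm'⟩ := Int.even_or_odd' m <;> obtain ⟨n', hn' | hn'⟩ := Int.even_or_odd' n
    · refine ⟨m', n', ?_⟩
      rw [hmn, hm', hn']
      push_cast
      ring
    · exfalso
      apply hB2
      have h5 : w - m' • (A : ℂ) - n' • ((B : ℂ) * I) ∈ L.lattice :=
        sub_mem (sub_mem hw (L.lattice.smul_mem m' hAm)) (L.lattice.smul_mem n' hBm)
      convert h5 using 1
      rw [hmn, hm', hn']
      simp only [zsmul_eq_mul]
      push_cast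
      ring
    · exfalso
      apply hA2
      have h5 : w - m' • (A : ℂ) - n' • ((B : ℂ) * I) ∈ L.lattice :=
        sub_mem (sub_mem hw (L.lattice.smul_mem m' hAm)) (L.lattice.smul_mem n' hBm)
      convert h5 using 1
      rw [hmn, hm', hn']
      simp only [zsmul_eq_mul]
      push_cast
      ring
    · exfalso
      apply hrh
      have h5 : w - m' • (A : ℂ) - n' • ((B : ℂ) * I) ∈ L.lattice :=
        sub_mem (sub_mem hw (L.lattice.smul_mem m' hAm)) (L.lattice.smul_mem n' hBm)
      convert h5 using 1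
      rw [hmn, hm', hn']
      simp only [zsmul_eq_mul]
      push_cast
      ring
  · rintro ⟨m, n, rfl⟩
    have h5 : m • (A : ℂ) + n • ((B : ℂ) * I) ∈ L.lattice :=
      add_mem (L.lattice.smul_mem m hAm) (L.lattice.smul_mem n hBm)
    simp only [zsmul_eq_mul] at h5
    convert h5 using 1
    ring

end Pool.Agent.E8helper21
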