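import Pool.Agent.E8helper21.PerPos

/-!
# The real period of an elliptic curve with positive discriminant as an integral
-/

set_option autoImplicit false

open Set Filter Topology MeasureTheory

namespace Pool.Agent.E8helper21

open Complex ComplexConjugate
open Pool.Agent.Y255.LAT (conj_mem wp_conj cyc ex_re ex_im dwp_zero)
open Pool.Agent.Y702.G (cubic)
open Pool.Agent.Y288.G (cubic_P)
open Pool.Agent.H285R3.Str (P_conj P'_conj)

variable {W : WeierstrassCurve ℤ} {L : PeriodPair}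

/-- `℘` on the line `c + ℝ` -/
noncomputable def pc (L : PeriodPair) (c : ℂ) (x : ℝ) : ℝ := (L.weierstrassP (x + c)).re

/-- `℘'` on the line `c + ℝ` -/
noncomputable def qc (L : PeriodPair) (c : ℂ) (x : ℝ) : ℝ := (L.derivWeierstrassP (x + c)).re

lemma pc_deriv {c : ℂ} {x : ℝ} (hx : (x : ℂ) + c ∉ L.lattice) :
    HasDerivAt (pc L c) (qc L c x) x := by
  have hopen : IsOpen (L.lattice : Set ℂ)ᶜ := L.isClosed_lattice.isOpen_compl
  have h2 : DifferentiableAt ℂ L.weierstrassP (x + c) :=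
    (L.differentiableOn_weierstrassP _ hx).differentiableAt (hopen.mem_nhds hx)
  have h3 := h2.hasDerivAt
  rw [L.deriv_weierstrassP] at h3
  have h4 : HasDerivAt (fun z : ℂ => L.weierstrassP (z + c)) (L.derivWeierstrassP (x + c)) (x : ℂ) :=
    HasDerivAt.comp_add_const (x : ℂ) c h3
  exact h4.real_of_complex

lemma qc_cont {c : ℂ} {s : Set ℝ} (hs : ∀ x ∈ s, (x : ℂ) + c ∉ L.lattice) :
    ContinuousOn (qc L c) s := by
  have h2 : ContinuousOn L.derivWeierstrassP (L.lattice : Set ℂ)ᶜ :=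
    L.differentiableOn_derivWeierstrassP.continuousOn
  have h3 : ContinuousOn (fun x : ℝ => L.derivWeierstrassP (x + c)) s :=
    h2.comp (Complex.continuous_ofReal.add continuous_const).continuousOn (fun x hx => hs x hx)
  exact Complex.continuous_re.comp_continuousOn h3

lemma qc_eq (hg2 : L.g₂ = (W.c₄ : ℂ) / 12) (hg3 : L.g₃ = (W.c₆ : ℂ) / 216) {c : ℂ}
    (hP : ∀ x : ℝ, L.weierstrassP (x + c) = (pc L c x : ℂ))
    (hQ : ∀ x : ℝ, L.derivWeierstrassP (x + c) = (qc L c x : ℂ)) {x : ℝ}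
    (hx : (x : ℂ) + c ∉ L.lattice) : qc L c x ^ 2 = cubic W (pc L c x - (W.b₂ : ℝ) / 12) := by
  have h1 := L.derivWeierstrassP_sq _ hx
  rw [hP, hQ, hg2, hg3] at h1
  have h2 : ((qc L c x ^ 2 : ℝ) : ℂ) =
      ((4 * pc L c x ^ 3 - (W.c₄ : ℝ) / 12 * pc L c x - (W.c₆ : ℝ) / 216 : ℝ) : ℂ) := by
    push_cast
    rw [h1]
  have h3 : qc L c x ^ 2 = 4 * pc L c x ^ 3 - (W.c₄ : ℝ) / 12 * pc L c x - (W.c₆ : ℝ) / 216 := by
    exact_mod_cast h2
  rw [h3, cubic_P]

/-- The integral over the image of a segment. -/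
theorem seg (hg2 : L.g₂ = (W.c₄ : ℂ) / 12) (hg3 : L.g₃ = (W.c₆ : ℂ) / 216) {c : ℂ}
    (hP : ∀ x : ℝ, L.weierstrassP (x + c) = (pc L c x : ℂ))
    (hQ : ∀ x : ℝ, L.derivWeierstrassP (x + c) = (qc L c x : ℂ)) {A : ℝ} (hA : 0 < A)
    (hn : ∀ x ∈ Ioo (0 : ℝ) A, 2 * ((x : ℂ) + c) ∉ L.lattice) :
    ((∀ x ∈ Ioo (0 : ℝ) A, 0 < qc L c x) ∨ (∀ x ∈ Ioo (0 : ℝ) A, qc L c x < 0)) ∧
    ∫ y in (fun x => pc L c x - (W.b₂ : ℝ) / 12) '' Ioo (0 : ℝ) A, 1 / Real.sqrt (cubic W y) = A := by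
  have hn' : ∀ x ∈ Ioo (0 : ℝ) A, (x : ℂ) + c ∉ L.lattice := by
    intro x hx h
    apply hn x hx
    rw [two_mul]
    exact add_mem h h
  have hqne : ∀ x ∈ Ioo (0 : ℝ) A, qc L c x ≠ 0 := by
    intro x hx h0
    refine Wg.wpd_ne L _ (hn x hx) ?_
    rw [hQ, h0, Complex.ofReal_zero]
  have hcq := qc_cont hn'
  have hsign : (∀ x ∈ Ioo (0 : ℝ) A, 0 < qc L c x) ∨ (∀ x ∈ Ioo (0 : ℝ) A, qc L c x < 0) := by
    by_contra hcon
    push Not at hcon
    obtain ⟨⟨x, hx, hx'⟩, ⟨y, hy, hy'⟩⟩ := hcon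
    obtain ⟨z, hz, hz'⟩ := isPreconnected_Ioo.intermediate_value hx hy hcq
      (show (0 : ℝ) ∈ Icc (qc L c x) (qc L c y) from ⟨hx', hy'⟩)
    exact hqne z hz hz'
  refine ⟨hsign, ?_⟩
  have hinj : InjOn (pc L c) (Ioo (0 : ℝ) A) := by
    rcases hsign with h | h
    · have : StrictMonoOn (pc L c) (Ioo (0 : ℝ) A) := by
        refine strictMonoOn_of_deriv_pos (convex_Ioo _ _) ?_ ?_
        · intro x hx
          exact (pc_deriv (hn' x hx)).continuousAt.continuousWithinAt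
        · intro x hx
          rw [interior_Ioo] at hx
          rw [(pc_deriv (hn' x hx)).deriv]
          exact h x hx
      exact this.injOn
    · have : StrictAntiOn (pc L c) (Ioo (0 : ℝ) A) := by
        refine strictAntiOn_of_deriv_neg (convex_Ioo _ _) ?_ ?_
        · intro x hx
          exact (pc_deriv (hn' x hx)).continuousAt.continuousWithinAt
        · intro x hx
          rw [interior_Ioo] at hx
          rw [(pc_deriv (hn' x hx)).deriv]
          exact h x hx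
      exact this.injOn
  rw [integral_image_eq_integral_abs_deriv_smul (f' := qc L c) measurableSet_Ioo
    (fun x hx => ((pc_deriv (hn' x hx)).sub_const ((W.b₂ : ℝ) / 12)).hasDerivWithinAt)]
  · have h1 : ∀ x ∈ Ioo (0 : ℝ) A,
        |qc L c x| • (1 / Real.sqrt (cubic W (pc L c x - (W.b₂ : ℝ) / 12))) = 1 := by
      intro x hx
      rw [← qc_eq hg2 hg3 hP hQ (hn' x hx), Real.sqrt_sq_eq_abs, smul_eq_mul]
      have : |qc L c x| ≠ 0 := abs_ne_zero.2 (hqne x hx)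
      field_simp
    rw [setIntegral_congr_fun measurableSet_Ioo h1]
    simp [hA.le]
  · intro x hx y hy hxy
    have hxy' : pc L c x = pc L c y := by simpa using hxy
    exact hinj hx hy hxy'

lemma pc_top : Tendsto (pc L 0) (𝓝[>] 0) atTop := by
  have h2 : ∀ x : ℝ, pc L 0 x = (L.weierstrassPExcept 0 x).re + 1 / x ^ 2 := by
    intro x
    have h3 := L.weierstrassPExcept_add 0 x
    simp only [Submodule.coe_zero, sub_zero] at h3
    simp only [pc, add_zero]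
    rw [← h3]
    rw [Complex.add_re]
    congr 1
    have : (1 / (x : ℂ) ^ 2 - 1 / (0 : ℂ) ^ 2) = ((1 / x ^ 2 : ℝ) : ℂ) := by
      push_cast; simp
    rw [this, Complex.ofReal_re]
  have h3 : ContinuousAt (fun x : ℝ => (L.weierstrassPExcept 0 x).re) 0 := by
    have h4 : ContinuousAt (L.weierstrassPExcept 0) ((0 : ℝ) : ℂ) := by
      refine ((L.differentiableOn_weierstrassPExcept 0).differentiableAt ?_).continuousAt
      exact_mod_cast L.compl_lattice_sdiff_singleton_mem_nhds 0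
    exact Complex.continuous_re.continuousAt.comp
      (ContinuousAt.comp (f := fun x : ℝ => (x : ℂ)) h4 Complex.continuous_ofReal.continuousAt)
  have h4 : Tendsto (fun x : ℝ => (L.weierstrassPExcept 0 x).re) (𝓝[>] 0)
      (𝓝 (L.weierstrassPExcept 0 ((0 : ℝ) : ℂ)).re) := h3.tendsto.mono_left nhdsWithin_le_nhds
  have h5 : Tendsto (fun x : ℝ => 1 / x ^ 2) (𝓝[>] 0) atTop := by
    have h6 : Tendsto (fun x : ℝ => (x⁻¹) ^ 2) (𝓝[>] 0) atTop :=
      (tendsto_pow_atTop two_ne_zero).comp tendsto_inv_nhdsGT_zero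
    refine h6.congr fun x => ?_
    rw [one_div, inv_pow]
  have h7 := h4.add_atTop h5
  exact h7.congr fun x => (h2 x).symm

/-- a cubic with three roots -/
lemma cubic_fac {x1 x2 x3 : ℝ} (h1 : cubic W x1 = 0) (h2 : cubic W x2 = 0) (h3 : cubic W x3 = 0)
    (h12 : x1 ≠ x2) (h13 : x1 ≠ x3) (h23 : x2 ≠ x3) (x : ℝ) :
    cubic W x = 4 * ((x - x1) * (x - x2) * (x - x3)) := by
  have e : ∀ y : ℝ, cubic W y = 4 * y ^ 3 + (W.b₂ : ℝ) * y ^ 2 + 2 * (W.b₄ : ℝ) * y + (W.b₆ : ℝ) :=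
    fun y => rfl
  rw [e] at h1 h2 h3 ⊢
  set b2 : ℝ := (W.b₂ : ℝ)
  set b4 : ℝ := (W.b₄ : ℝ)
  set b6 : ℝ := (W.b₆ : ℝ)
  have d12 : 4 * (x1 ^ 2 + x1 * x2 + x2 ^ 2) + b2 * (x1 + x2) + 2 * b4 = 0 := by
    have : (x1 - x2) * (4 * (x1 ^ 2 + x1 * x2 + x2 ^ 2) + b2 * (x1 + x2) + 2 * b4) = 0 := by
      linear_combination h1 - h2
    exact (mul_eq_zero.1 this).resolve_left (sub_ne_zero.2 h12)
  have d13 : 4 * (x1 ^ 2 + x1 * x3 + x3 ^ 2) + b2 * (x1 + x3) + 2 * b4 = 0 := by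
    have : (x1 - x3) * (4 * (x1 ^ 2 + x1 * x3 + x3 ^ 2) + b2 * (x1 + x3) + 2 * b4) = 0 := by
      linear_combination h1 - h3
    exact (mul_eq_zero.1 this).resolve_left (sub_ne_zero.2 h13)
  have hb2 : 4 * (x1 + x2 + x3) + b2 = 0 := by
    have : (x2 - x3) * (4 * (x1 + x2 + x3) + b2) = 0 := by linear_combination d12 - d13
    exact (mul_eq_zero.1 this).resolve_left (sub_ne_zero.2 h23)
  linear_combination h1 + (x - x1) * d12 + (x - x1) * (x - x2) * hb2

end Pool.Agent.E8helper21
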